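import Pool.Agent.Helper5.SV.Peel

open MeasureTheory

namespace Pool.Agent.Helper5.SV

variable {m : ℕ}

/-- enumeration of an affinely independent spanning set -/
theorem enum (t : Set (Fin m → ℝ)) (hfin : t.Finite) (hts : affineSpan ℝ t = ⊤)
    (hti : AffineIndependent ℝ ((↑) : t → (Fin m → ℝ))) :
    ∃ x : Fin (m + 1) → (Fin m → ℝ), Set.range x = t ∧ AffineIndependent ℝ x := by
  classical
  have : Fintype t := hfin.fintype
  have htcard : Fintype.card t = m + 1 := by
    have := hti.affineSpan_eq_top_iff_card_eq_finrank_add_one.1 (by simpa using hts)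
    simpa using this
  let e : Fin (m + 1) ≃ t := (Fintype.equivFinOfCardEq htcard).symm
  refine ⟨fun i => (e i : Fin m → ℝ), ?_, ?_⟩
  · ext y
    constructor
    · rintro ⟨i, rfl⟩; exact (e i).2
    · intro hy
      exact ⟨e.symm ⟨y, hy⟩, by simp⟩
  · exact hti.comp_embedding e.toEmbedding

theorem null_zero_set (h : (Fin m → ℝ) → ℝ) (hh : Aff h) (p : Fin m → ℝ) (hp : 0 < h p) :
    volume {y : Fin m → ℝ | h y = 0} = 0 := by
  set s : AffineSubspace ℝ (Fin m → ℝ) := affineSpan ℝ {y | h y = 0} with hs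
  have hne : s ≠ ⊤ := by
    intro htop
    have := aff_zero h hh {y | h y = 0} htop (fun a ha => ha) p
    linarith
  exact measure_mono_null (subset_affineSpan ℝ _) (Measure.addHaar_affineSubspace volume s hne)

theorem peel (τ : ENNReal) : ∀ (k : ℕ) (S : Finset (Fin m → ℝ)),
    S.card = m + 1 + k → affineSpan ℝ (S : Set (Fin m → ℝ)) = ⊤ →
    (∀ x : Fin (m + 1) → (Fin m → ℝ), (∀ i, x i ∈ S) → AffineIndependent ℝ x →
      τ ≤ volume (convexHull ℝ (Set.range x))) →
    ((k : ENNReal) + 1) * τ ≤ volume (convexHull ℝ (S : Set (Fin m → ℝ))) := by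
  classical
  intro k
  induction k with
  | zero =>
    intro S _ hS hτ
    obtain ⟨t, htS, hts, hti⟩ := exists_affineIndependent ℝ (Fin m → ℝ) (S : Set (Fin m → ℝ))
    rw [hS] at hts
    obtain ⟨x, hx, hxi⟩ := enum t (S.finite_toSet.subset htS) hts hti
    have h1 := hτ x (fun i => htS (hx ▸ ⟨i, rfl⟩)) hxi
    rw [hx] at h1
    simp only [Nat.cast_zero, zero_add, one_mul]
    exact h1.trans (measure_mono (convexHull_mono htS))
  | succ k ih =>
    intro S hcard hS hτ
    obtain ⟨p, hpS, hspan, hpc⟩ := exists_removable S hS (by omega)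
    have hih := ih (S.erase p) (by rw [Finset.card_erase_of_mem hpS]; omega) hspan
      (fun x hx hxi => hτ x (fun i => Finset.mem_of_mem_erase (hx i)) hxi)
    obtain ⟨t, htS, hts, hti, h, hh, hcont, hS0, ht0, hp0⟩ := exists_simplex (S.erase p) hspan p hpc
    have htS' : t ⊆ (S : Set (Fin m → ℝ)) := by
      intro y hy
      rcases htS hy with rfl | hy
      · exact hpS
      · exact Finset.mem_of_mem_erase hy
    obtain ⟨x, hx, hxi⟩ := enum t (S.finite_toSet.subset htS') hts hti
    have h1 := hτ x (fun i => htS' (hx ▸ ⟨i, rfl⟩)) hxi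
    rw [hx] at h1
    have hconvle : Convex ℝ {y : Fin m → ℝ | h y ≤ 0} := by
      intro y hy z hz a b ha hb hab
      have h3 : a • y + b • z = a • (y - z) + z := by
        have : b = 1 - a := by linarith
        subst this
        simp only [smul_sub, sub_smul, one_smul]; abel
      show h (a • y + b • z) ≤ 0
      rw [h3, hh]
      have hy' : h y ≤ 0 := hy
      have hz' : h z ≤ 0 := hz
      nlinarith
    have hconvge : Convex ℝ {y : Fin m → ℝ | 0 ≤ h y} := by
      intro y hy z hz a b ha hb hab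
      have h3 : a • y + b • z = a • (y - z) + z := by
        have : b = 1 - a := by linarith
        subst this
        simp only [smul_sub, sub_smul, one_smul]; abel
      show 0 ≤ h (a • y + b • z)
      rw [h3, hh]
      have hy' : 0 ≤ h y := hy
      have hz' : 0 ≤ h z := hz
      nlinarith
    have hsub1 : convexHull ℝ (S.erase p : Set (Fin m → ℝ)) ⊆ {y | h y ≤ 0} :=
      convexHull_min (fun s hs => hS0 s hs) hconvle
    have hsub2 : convexHull ℝ t ⊆ {y | 0 ≤ h y} :=
      convexHull_min (fun s hs => ht0 s hs) hconvge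
    have hdisj : AEDisjoint volume (convexHull ℝ (S.erase p : Set (Fin m → ℝ))) (convexHull ℝ t) := by
      apply measure_mono_null _ (null_zero_set h hh p hp0)
      rintro y ⟨hy1, hy2⟩
      exact le_antisymm (hsub1 hy1) (hsub2 hy2)
    have hmeas : NullMeasurableSet (convexHull ℝ t) volume :=
      ((S.finite_toSet.subset htS').isCompact_convexHull ℝ).measurableSet.nullMeasurableSet
    calc (((k + 1 : ℕ) : ENNReal) + 1) * τ = ((k : ENNReal) + 1) * τ + τ := by
          push_cast; ring
      _ ≤ volume (convexHull ℝ (S.erase p : Set (Fin m → ℝ))) + volume (convexHull ℝ t) :=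
          add_le_add hih h1
      _ = volume (convexHull ℝ (S.erase p : Set (Fin m → ℝ)) ∪ convexHull ℝ t) :=
          (measure_union₀ hmeas hdisj).symm
      _ ≤ volume (convexHull ℝ (S : Set (Fin m → ℝ))) := by
          apply measure_mono
          apply Set.union_subset
          · apply convexHull_mono
            intro y hy
            exact Finset.mem_of_mem_erase hy
          · exact convexHull_mono htS'

theorem affineIndependent_iff_G (x : Fin (m + 1) → (Fin m → ℝ)) (hx : AffineIndependent ℝ x) :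
    G x ≠ 0 := by
  rw [G_eq_D]
  have h1 := (affineIndependent_iff_linearIndependent_vsub ℝ x 0).1 hx
  have h2 : LinearIndependent ℝ (fun i : Fin m => (x i.succ - x 0 : Fin m → ℝ)) :=
    h1.comp (fun i : Fin m => (⟨i.succ, Fin.succ_ne_zero i⟩ : {k : Fin (m + 1) // k ≠ 0}))
      (fun i j hij => by
        have := congrArg Subtype.val hij
        exact Fin.succ_injective _ this)
  intro h0
  have h3 := Matrix.linearIndependent_rows_iff_isUnit.1
    (show LinearIndependent ℝ (Matrix.of fun i : Fin m => (x i.succ - x 0 : Fin m → ℝ)).row from h2)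
  rw [Matrix.isUnit_iff_isUnit_det] at h3
  exact h3.ne_zero h0

theorem finite_volumes (S : Finset (Fin m → ℝ)) :
    (simplexVolumes (S : Set (Fin m → ℝ))).Finite := by
  classical
  have : simplexVolumes (S : Set (Fin m → ℝ)) ⊆
      (fun x : Fin (m + 1) → S => simplexVolume (fun i => (x i : Fin m → ℝ))) '' Set.univ := by
    rintro v ⟨x, _, hx, rfl⟩
    exact ⟨fun i => ⟨x i, hx i⟩, trivial, rfl⟩
  exact (Set.finite_univ.image _).subset this

/-- the inequality for every single set S -/
theorem main_set (m : ℕ) (S : Finset (Fin (m + 1) → ℝ))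
    (hS : affineSpan ℝ (S : Set (Fin (m + 1) → ℝ)) = ⊤) :
    0 < smallest (S : Set (Fin (m + 1) → ℝ)) ∧
    ((S.card : ℝ) - (m + 1 : ℕ)) * smallest (S : Set (Fin (m + 1) → ℝ))
      ≤ ((m + 1).factorial : ℝ) * (2 * Real.log 2) ^ m * largest (S : Set (Fin (m + 1) → ℝ)) := by
  classical
  set P : Set ℝ := {v | v ∈ simplexVolumes (S : Set (Fin (m + 1) → ℝ)) ∧ 0 < v} with hP
  have hPfin : P.Finite := (finite_volumes S).subset (fun v hv => hv.1)
  -- P is nonempty
  obtain ⟨t, htS, hts, hti⟩ := exists_affineIndependent ℝ (Fin (m + 1) → ℝ)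
    (S : Set (Fin (m + 1) → ℝ))
  rw [hS] at hts
  obtain ⟨x0, hx0, hx0i⟩ := enum t (S.finite_toSet.subset htS) hts hti
  have hposvol : ∀ x : Fin (m + 1 + 1) → (Fin (m + 1) → ℝ), AffineIndependent ℝ x →
      0 < simplexVolume x := by
    intro x hx
    rw [simplexVolume_eq]
    exact mul_pos (abs_pos.2 (affineIndependent_iff_G x hx)) (V_pos _)
  have hPne : P.Nonempty :=
    ⟨simplexVolume x0, ⟨x0, hx0i.injective, fun i => htS (hx0 ▸ ⟨i, rfl⟩), rfl⟩, hposvol x0 hx0i⟩
  have hmem : smallest (S : Set (Fin (m + 1) → ℝ)) ∈ P := hPne.csInf_mem hPfin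
  have hsm : 0 < smallest (S : Set (Fin (m + 1) → ℝ)) := hmem.2
  refine ⟨hsm, ?_⟩
  have hbdd : BddAbove (simplexVolumes (S : Set (Fin (m + 1) → ℝ))) := (finite_volumes S).bddAbove
  have hPbdd : BddBelow P := ⟨0, fun v hv => hv.2.le⟩
  -- lower bound by peeling
  have hcard : m + 1 + 1 ≤ S.card := by
    have h1 : t.Finite := S.finite_toSet.subset htS
    have : Fintype t := h1.fintype
    have htcard : Fintype.card t = m + 1 + 1 := by
      have := hti.affineSpan_eq_top_iff_card_eq_finrank_add_one.1 (by simpa using hts)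
      simpa using this
    have h2 : h1.toFinset ⊆ S := fun x hx => htS (h1.mem_toFinset.1 hx)
    have h3 := Finset.card_le_card h2
    rw [Set.Finite.card_toFinset h1] at h3
    omega
  obtain ⟨k, hk⟩ := Nat.exists_eq_add_of_le hcard
  have hlow := peel (ENNReal.ofReal (smallest (S : Set (Fin (m + 1) → ℝ)))) k S hk hS (by
    intro x hx hxi
    have h1 : smallest (S : Set (Fin (m + 1) → ℝ)) ≤ simplexVolume x :=
      csInf_le hPbdd ⟨⟨x, hxi.injective, hx, rfl⟩, hposvol x hxi⟩
    exact ENNReal.ofReal_le_of_le_toReal h1)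
  -- upper bound by slicing
  set T : ℝ := largest (S : Set (Fin (m + 1) → ℝ)) / V (m + 1) with hT
  have hlg : 0 ≤ largest (S : Set (Fin (m + 1) → ℝ)) :=
    le_trans (hposvol x0 hx0i).le (le_csSup hbdd ⟨x0, hx0i.injective,
      fun i => htS (hx0 ▸ ⟨i, rfl⟩), rfl⟩)
  have hT0 : 0 ≤ T := div_nonneg hlg (V_pos _).le
  have hup := volume_le m (convexHull ℝ (S : Set (Fin (m + 1) → ℝ)))
    (S.finite_toSet.isCompact_convexHull ℝ) T hT0 (by
      intro x hx
      rw [← G_eq_D]
      refine G_hull (S : Set (Fin (m + 1) → ℝ)) T ?_ x hx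
      intro x hx
      by_cases hinj : Function.Injective x
      · rw [hT, le_div_iff₀ (V_pos _), ← simplexVolume_eq]
        exact le_csSup hbdd ⟨x, hinj, hx, rfl⟩
      · rw [Function.Injective] at hinj
        push Not at hinj
        obtain ⟨i, j, hij, hne⟩ := hinj
        have : G x = 0 := by
          unfold G
          apply Matrix.det_zero_of_row_eq hne
          funext l
          simp [Matrix.of_apply, hij]
        rw [this, abs_zero]; exact hT0)
  have hfin := hlow.trans hup
  have hV := V_ge (m + 1)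
  have hlog : 0 ≤ Real.log 2 := Real.log_nonneg (by norm_num)
  have h4 : ((k : ℝ) + 1) * smallest (S : Set (Fin (m + 1) → ℝ)) ≤ (2 * Real.log 2) ^ m * T := by
    have h5 : ((k : ENNReal) + 1) * ENNReal.ofReal (smallest (S : Set (Fin (m + 1) → ℝ)))
        = ENNReal.ofReal (((k : ℝ) + 1) * smallest (S : Set (Fin (m + 1) → ℝ))) := by
      rw [ENNReal.ofReal_mul (by positivity), ENNReal.ofReal_add (by positivity) zero_le_one]
      simp
    rw [h5] at hfin
    exact (ENNReal.ofReal_le_ofReal_iff (by positivity)).1 hfin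
  have h6 : T ≤ ((m + 1).factorial : ℝ) * largest (S : Set (Fin (m + 1) → ℝ)) := by
    rw [hT, div_le_iff₀ (V_pos _)]
    have h7 : 1 ≤ ((m + 1).factorial : ℝ) * V (m + 1) := by
      rw [div_le_iff₀ (by positivity)] at hV
      linarith
    nlinarith
  have h8 : ((S.card : ℝ) - (m + 1 : ℕ)) = (k : ℝ) + 1 := by
    rw [hk]; push_cast; ring
  rw [h8]
  calc ((k : ℝ) + 1) * smallest (S : Set (Fin (m + 1) → ℝ)) ≤ (2 * Real.log 2) ^ m * T := h4
    _ ≤ (2 * Real.log 2) ^ m * (((m + 1).factorial : ℝ) * largest (S : Set (Fin (m + 1) → ℝ))) := by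
        gcongr
    _ = _ := by ring

theorem exists_set (m n : ℕ) (hn : m + 2 ≤ n) :
    ∃ S : Finset (Fin (m + 1) → ℝ), S.card = n ∧ affineSpan ℝ (S : Set (Fin (m + 1) → ℝ)) = ⊤ := by
  classical
  obtain ⟨t, htS, hts, hti⟩ := exists_affineIndependent ℝ (Fin (m + 1) → ℝ)
    (Set.univ : Set (Fin (m + 1) → ℝ))
  rw [AffineSubspace.span_univ] at hts
  have hfin : t.Finite := finite_set_of_fin_dim_affineIndependent ℝ hti
  have : Fintype t := hfin.fintype
  have htcard : Fintype.card t = m + 1 + 1 := by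
    have := hti.affineSpan_eq_top_iff_card_eq_finrank_add_one.1 (by simpa using hts)
    simpa using this
  obtain ⟨S, hS1, hS2⟩ := Infinite.exists_superset_card_eq hfin.toFinset n (by
    rw [Set.Finite.card_toFinset hfin]; omega)
  refine ⟨S, hS2, ?_⟩
  rw [eq_top_iff, ← hts]
  apply affineSpan_mono
  intro y hy
  exact hS1 (hfin.mem_toFinset.2 hy)

theorem main (m n : ℕ) (hm : 1 ≤ m) (hn : m + 1 ≤ n) :
    ((n : ℝ) - m) / ((m.factorial : ℝ) * (2 * Real.log 2) ^ (m - 1)) ≤ ratio m n := by
  obtain ⟨m, rfl⟩ : ∃ k, m = k + 1 := ⟨m - 1, by omega⟩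
  have hlog : 0 < Real.log 2 := Real.log_pos (by norm_num)
  apply le_csInf
  · obtain ⟨S, h1, h2⟩ := exists_set m n (by omega)
    exact ⟨_, S, h1, h2, rfl⟩
  · rintro r ⟨S, hc, hS, rfl⟩
    obtain ⟨h1, h2⟩ := main_set m S hS
    rw [hc] at h2
    rw [div_le_div_iff₀ (by positivity) h1]
    rw [show m + 1 - 1 = m from rfl]
    linarith

end Pool.Agent.Helper5.SV
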