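import Mathlib

/-!
# MP_e51904_co: definitions

Largest and smallest positive volume of a simplex with vertices in a set
S of points of real m-space, and f_m(n).
-/

open MeasureTheory

namespace Pool.Agent.Helper5.SV

/-- The m-dimensional Lebesgue measure of the convex hull of the m+1 points
`x 0, ..., x m` of real m-space. -/
noncomputable def simplexVolume {m : ℕ} (x : Fin (m + 1) → (Fin m → ℝ)) : ℝ :=
  (volume (convexHull ℝ (Set.range x))).toReal

/-- The volumes of all simplices whose m+1 vertices are distinct points of S. -/
def simplexVolumes {m : ℕ} (S : Set (Fin m → ℝ)) : Set ℝ :=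
  {v | ∃ x : Fin (m + 1) → (Fin m → ℝ),
    Function.Injective x ∧ (∀ i, x i ∈ S) ∧ v = simplexVolume x}

/-- T(S), the largest volume of a simplex with vertices in S. -/
noncomputable def largest {m : ℕ} (S : Set (Fin m → ℝ)) : ℝ :=
  sSup (simplexVolumes S)

/-- t(S), the smallest positive volume of a simplex with vertices in S. -/
noncomputable def smallest {m : ℕ} (S : Set (Fin m → ℝ)) : ℝ :=
  sInf {v | v ∈ simplexVolumes S ∧ 0 < v}

/-- f_m(n): the infimum of T(S)/t(S) over all n-point subsets S of real m-space
that are not contained in an affine hyperplane. -/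
noncomputable def ratio (m n : ℕ) : ℝ :=
  sInf {r : ℝ | ∃ S : Finset (Fin m → ℝ), S.card = n ∧
    affineSpan ℝ (S : Set (Fin m → ℝ)) = ⊤ ∧
    r = largest (S : Set (Fin m → ℝ)) / smallest (S : Set (Fin m → ℝ))}

end Pool.Agent.Helper5.SV
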