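import Pool.Agent.Helper5.SV.Defs

open MeasureTheory

namespace Pool.Agent.Helper5.SV

/-- homogeneous determinant of m+1 points -/
noncomputable def G {m : ℕ} (x : Fin (m + 1) → (Fin m → ℝ)) : ℝ :=
  Matrix.det (Matrix.of fun i : Fin (m + 1) => (Fin.cons 1 (x i) : Fin (m + 1) → ℝ))

/-- determinant of the differences -/
noncomputable def D {m : ℕ} (x : Fin (m + 1) → (Fin m → ℝ)) : ℝ :=
  Matrix.det (Matrix.of fun i : Fin m => (x i.succ - x 0 : Fin m → ℝ))

theorem G_eq_D {m : ℕ} (x : Fin (m + 1) → (Fin m → ℝ)) : G x = D x := by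
  classical
  set B : Matrix (Fin (m + 1)) (Fin (m + 1)) ℝ :=
    Matrix.of (Fin.cons (Fin.cons 1 (x 0))
      (fun i : Fin m => (Fin.cons 0 (x i.succ - x 0) : Fin (m + 1) → ℝ))) with hB
  have h1 : G x = B.det := by
    apply Matrix.det_eq_of_forall_row_eq_smul_add_const
      (c := Fin.cons 0 (fun _ => (1 : ℝ))) (k := 0)
    · simp
    · intro i j
      refine Fin.cases ?_ (fun i => ?_) i
      · refine Fin.cases ?_ (fun j => ?_) j <;> simp [hB]
      · refine Fin.cases ?_ (fun j => ?_) j <;> simp [hB]
  rw [h1, Matrix.det_succ_column_zero, Fin.sum_univ_succ]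
  have h2 : ∑ i : Fin m, (-1 : ℝ) ^ (i.succ : ℕ) * B i.succ 0
      * (B.submatrix i.succ.succAbove Fin.succ).det = 0 := by
    apply Finset.sum_eq_zero
    intro i _
    simp [hB]
  rw [h2, add_zero]
  have h3 : B.submatrix (Fin.succAbove 0) Fin.succ
      = Matrix.of fun i : Fin m => (x i.succ - x 0 : Fin m → ℝ) := by
    ext i j
    simp [hB, Matrix.submatrix_apply]
  rw [h3]
  simp [hB, D]

/-- affine behaviour of G in each variable -/
theorem G_update_comb {m : ℕ} (x : Fin (m + 1) → (Fin m → ℝ)) (i : Fin (m + 1))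
    (y z : Fin m → ℝ) (a b : ℝ) (hab : a + b = 1) :
    G (Function.update x i (a • y + b • z))
      = a * G (Function.update x i y) + b * G (Function.update x i z) := by
  classical
  have key : ∀ w : Fin m → ℝ, G (Function.update x i w)
      = ((Matrix.of fun k : Fin (m + 1) => (Fin.cons 1 (x k) : Fin (m + 1) → ℝ)).updateRow i
        (Fin.cons 1 w)).det := by
    intro w
    unfold G
    congr 1
    ext k l
    by_cases hk : k = i
    · subst hk; simp [Matrix.updateRow_self]
    · simp [Matrix.updateRow_ne hk, Function.update_of_ne hk]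
  rw [key, key, key]
  have : (Fin.cons 1 (a • y + b • z) : Fin (m + 1) → ℝ)
      = a • (Fin.cons 1 y : Fin (m + 1) → ℝ) + b • (Fin.cons 1 z : Fin (m + 1) → ℝ) := by
    ext l
    refine Fin.cases ?_ (fun l => ?_) l
    · simp [hab]
    · simp
  rw [this, Matrix.det_updateRow_add, Matrix.det_updateRow_smul, Matrix.det_updateRow_smul]

theorem convex_G_le {m : ℕ} (x : Fin (m + 1) → (Fin m → ℝ)) (i : Fin (m + 1)) (T : ℝ) :
    Convex ℝ {y : Fin m → ℝ | |G (Function.update x i y)| ≤ T} := by
  intro y hy z hz a b ha hb hab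
  simp only [Set.mem_setOf_eq] at *
  rw [G_update_comb x i y z a b hab]
  calc |a * G (Function.update x i y) + b * G (Function.update x i z)|
      ≤ |a * G (Function.update x i y)| + |b * G (Function.update x i z)| := abs_add_le _ _
    _ = a * |G (Function.update x i y)| + b * |G (Function.update x i z)| := by
        rw [abs_mul, abs_mul, abs_of_nonneg ha, abs_of_nonneg hb]
    _ ≤ a * T + b * T := by gcongr
    _ = T := by rw [← add_mul, hab, one_mul]

/-- a bound for |G| on S extends to the convex hull of S -/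
theorem G_hull {m : ℕ} (S : Set (Fin m → ℝ)) (T : ℝ)
    (hT : ∀ x : Fin (m + 1) → (Fin m → ℝ), (∀ i, x i ∈ S) → |G x| ≤ T)
    (x : Fin (m + 1) → (Fin m → ℝ)) (hx : ∀ i, x i ∈ convexHull ℝ S) : |G x| ≤ T := by
  classical
  have key : ∀ A : Finset (Fin (m + 1)), ∀ x : Fin (m + 1) → (Fin m → ℝ),
      (∀ i ∈ A, x i ∈ convexHull ℝ S) → (∀ i ∉ A, x i ∈ S) → |G x| ≤ T := by
    intro A
    induction A using Finset.induction_on with
    | empty =>
      intro x _ h
      exact hT x (fun i => h i (Finset.notMem_empty i))
    | insert a A ha ih =>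
      intro x h1 h2
      have hsub : S ⊆ {y : Fin m → ℝ | |G (Function.update x a y)| ≤ T} := by
        intro y hy
        apply ih
        · intro i hi
          have : i ≠ a := fun h => ha (h ▸ hi)
          rw [Function.update_of_ne this]
          exact h1 i (Finset.mem_insert_of_mem hi)
        · intro i hi
          by_cases h : i = a
          · subst h; simpa using hy
          · rw [Function.update_of_ne h]
            apply h2
            simp [h, hi]
      have := convexHull_min hsub (convex_G_le x a T) (h1 a (Finset.mem_insert_self a A))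
      simpa using this
  exact key Finset.univ x (fun i _ => hx i) (fun i hi => absurd (Finset.mem_univ i) hi)

end Pool.Agent.Helper5.SV
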