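import Pool.Agent.Helper5.SV.Simplex

open MeasureTheory

namespace Pool.Agent.Helper5.SV

variable {m : ℕ}


/-- functions compatible with affine combinations -/
def Aff (f : (Fin m → ℝ) → ℝ) : Prop :=
  ∀ (c : ℝ) (u v w : Fin m → ℝ), f (c • (u - v) + w) = c * (f u - f v) + f w

theorem aff_zero (f : (Fin m → ℝ) → ℝ) (hf : Aff f) (A : Set (Fin m → ℝ))
    (hA : affineSpan ℝ A = ⊤) (h0 : ∀ a ∈ A, f a = 0) (y : Fin m → ℝ) : f y = 0 := by
  have hy : y ∈ affineSpan ℝ A := by rw [hA]; trivial
  refine affineSpan_induction (p := fun y => f y = 0) hy (fun a ha => h0 a ha) ?_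
  intro c u v w hu hv hw
  show f (c • (u - v) + w) = 0
  rw [hf, hu, hv, hw]; ring

theorem aff_add {f g : (Fin m → ℝ) → ℝ} (hf : Aff f) (hg : Aff g) (c : ℝ) :
    Aff (fun y => f y + c * g y) := by
  intro d u v w
  simp only [hf d u v w, hg d u v w]
  ring

theorem aff_sum {ι : Type*} (t : Finset ι) (f : ι → (Fin m → ℝ) → ℝ) (hf : ∀ i ∈ t, Aff (f i)) :
    Aff (fun y => ∑ i ∈ t, f i y) := by
  intro c u v w
  show ∑ i ∈ t, f i (c • (u - v) + w) = c * (∑ i ∈ t, f i u - ∑ i ∈ t, f i v) + ∑ i ∈ t, f i w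
  rw [← Finset.sum_sub_distrib, Finset.mul_sum, ← Finset.sum_add_distrib]
  exact Finset.sum_congr rfl (fun i hi => hf i hi c u v w)

theorem exists_aff (A : Set (Fin m → ℝ)) (hA : affineSpan ℝ A ≠ ⊤) :
    ∃ g : (Fin m → ℝ) → ℝ, Aff g ∧ (∃ v, g v ≠ 0) ∧ ∀ a ∈ A, g a = 0 := by
  rcases A.eq_empty_or_nonempty with rfl | ⟨a0, ha0⟩
  · refine ⟨fun _ => 1, ?_, ⟨0, one_ne_zero⟩, fun a ha => absurd ha (Set.notMem_empty a)⟩
    intro c u v w; ring
  · have hW : vectorSpan ℝ A ≠ ⊤ := by
      intro h
      exact hA ((AffineSubspace.affineSpan_eq_top_iff_vectorSpan_eq_top_of_nonempty ℝ _ _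
        ⟨a0, ha0⟩).2 h)
    obtain ⟨φ, hφ, hker⟩ := Submodule.exists_le_ker_of_lt_top _ (lt_top_iff_ne_top.2 hW)
    refine ⟨fun y => φ (y - a0), ?_, ?_, ?_⟩
    · intro c u v w
      have : c • (u - v) + w - a0 = c • ((u - a0) - (v - a0)) + (w - a0) := by
        simp only [smul_sub]; abel
      simp only [this, map_add, map_smul, map_sub, smul_eq_mul]
    · obtain ⟨v, hv⟩ : ∃ v, φ v ≠ 0 := by
        by_contra! h
        exact hφ (LinearMap.ext (fun v => by simpa using h v))
      exact ⟨v + a0, by simpa using hv⟩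
    · intro a ha
      exact hker (vsub_mem_vectorSpan ℝ ha ha0)

/-- the supporting hyperplane with a full simplex at p -/
theorem exists_simplex (S : Finset (Fin m → ℝ)) (hS : affineSpan ℝ (S : Set (Fin m → ℝ)) = ⊤)
    (p : Fin m → ℝ) (hp : p ∉ convexHull ℝ (S : Set (Fin m → ℝ))) :
    ∃ t : Set (Fin m → ℝ), t ⊆ insert p (S : Set (Fin m → ℝ)) ∧ affineSpan ℝ t = ⊤ ∧
      AffineIndependent ℝ ((↑) : t → (Fin m → ℝ)) ∧
      ∃ h : (Fin m → ℝ) → ℝ, Aff h ∧ Continuous h ∧ (∀ s ∈ S, h s ≤ 0) ∧ (∀ s ∈ t, 0 ≤ h s) ∧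
        0 < h p := by
  classical
  set Q : Finset (Fin m → ℝ) → Prop := fun A => ∃ h : (Fin m → ℝ) → ℝ, Aff h ∧
    (∀ s ∈ S, h s ≤ 0) ∧ 0 < h p ∧ ∀ s ∈ A, h s = 0 with hQ
  have hne : (S.powerset.filter Q).Nonempty := by
    refine ⟨∅, ?_⟩
    rw [Finset.mem_filter]
    refine ⟨Finset.mem_powerset.2 (Finset.empty_subset _), ?_⟩
    obtain ⟨f, u, h1, h2⟩ := geometric_hahn_banach_closed_point (convex_convexHull ℝ _)
      (S.finite_toSet.isClosed_convexHull ℝ) hp
    refine ⟨fun y => f y - u, ?_, ?_, ?_, ?_⟩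
    · intro c u v w
      simp only [map_add, map_smul, map_sub, smul_eq_mul]; ring
    · intro s hs
      have := h1 s (subset_convexHull ℝ _ hs)
      linarith
    · linarith
    · intro s hs; exact absurd hs (Finset.notMem_empty s)
  obtain ⟨A, hA, hmax⟩ := Finset.exists_max_image _ Finset.card hne
  rw [Finset.mem_filter, Finset.mem_powerset] at hA
  obtain ⟨hAS, h, hh, hS0, hp0, hA0⟩ := hA
  have hspan : affineSpan ℝ (insert p (A : Set (Fin m → ℝ))) = ⊤ := by
    by_contra hcon
    obtain ⟨g0, hg0, ⟨v, hv⟩, hg1⟩ := exists_aff _ hcon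
    -- choose the sign
    obtain ⟨g, hg, hgA, s0, hs0, hgs0⟩ : ∃ g : (Fin m → ℝ) → ℝ, Aff g ∧
        (∀ a ∈ insert p (A : Set (Fin m → ℝ)), g a = 0) ∧ ∃ s ∈ S, 0 < g s := by
      by_cases hc : ∃ s ∈ S, 0 < g0 s
      · exact ⟨g0, hg0, hg1, hc⟩
      · push_neg at hc
        have : ∃ s ∈ S, g0 s ≠ 0 := by
          by_contra! h
          exact hv (aff_zero g0 hg0 _ hS (fun a ha => h a ha) v)
        obtain ⟨s, hs, hs1⟩ := this
        refine ⟨fun y => - g0 y, ?_, ?_, s, hs, ?_⟩
        · intro c u v w; simp only [hg0 c u v w]; ring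
        · intro a ha; simp [hg1 a ha]
        · have := lt_of_le_of_ne (hc s hs) hs1
          simpa using this
    obtain ⟨s1, hs1, hmin⟩ := Finset.exists_min_image (S.filter (fun s => 0 < g s))
      (fun s => - h s / g s) ⟨s0, Finset.mem_filter.2 ⟨hs0, hgs0⟩⟩
    rw [Finset.mem_filter] at hs1
    obtain ⟨hs1S, hs1g⟩ := hs1
    have heps : 0 ≤ - h s1 / g s1 := div_nonneg (by linarith [hS0 s1 hs1S]) hs1g.le
    have hmem : insert s1 A ∈ S.powerset.filter Q := by
      rw [Finset.mem_filter, Finset.mem_powerset]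
      refine ⟨Finset.insert_subset hs1S hAS, fun y => h y + (- h s1 / g s1) * g y,
        aff_add hh hg _, ?_, ?_, ?_⟩
      · intro s hs
        rcases le_or_gt (g s) 0 with hgs | hgs
        · have := hS0 s hs
          have := mul_nonpos_of_nonneg_of_nonpos heps hgs
          show h s + (- h s1 / g s1) * g s ≤ 0
          linarith
        · have h3 := hmin s (Finset.mem_filter.2 ⟨hs, hgs⟩)
          have h4 : (- h s1 / g s1) * g s ≤ - h s := by
            rwa [← le_div_iff₀ hgs]
          show h s + (- h s1 / g s1) * g s ≤ 0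
          linarith
      · have := hgA p (Set.mem_insert _ _)
        show 0 < h p + (- h s1 / g s1) * g p
        rw [this]; linarith
      · intro s hs
        rcases Finset.mem_insert.1 hs with rfl | hs
        · field_simp
          ring
        · have h5 := hgA s (Set.mem_insert_of_mem _ hs)
          show h s + (- h s1 / g s1) * g s = 0
          rw [h5, hA0 s hs]; ring
    have hnot : s1 ∉ A := by
      intro hc
      have := hgA s1 (Set.mem_insert_of_mem _ hc)
      linarith
    have := hmax _ hmem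
    rw [Finset.card_insert_of_notMem hnot] at this
    omega
  obtain ⟨t, ht, hts, hti⟩ := exists_affineIndependent ℝ (Fin m → ℝ) (insert p (A : Set (Fin m → ℝ)))
  refine ⟨t, ht.trans (Set.insert_subset_insert hAS), by rw [hts, hspan], hti, h, hh, ?_,
    hS0, ?_, hp0⟩
  · -- continuity of an affine function
    have : h = fun y => ∑ i, y i * (h (Pi.single i 1) - h 0) + h 0 := by
      have hlin : ∀ (t : Finset (Fin m)) (y : Fin m → ℝ),
          h (∑ i ∈ t, y i • (Pi.single i (1 : ℝ) : Fin m → ℝ))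
            = ∑ i ∈ t, y i * (h (Pi.single i 1) - h 0) + h 0 := by
        intro t y
        induction t using Finset.induction_on with
        | empty => simp
        | insert a t ha ih =>
          rw [Finset.sum_insert ha, Finset.sum_insert ha]
          have := hh (y a) (Pi.single a 1) 0 (∑ i ∈ t, y i • (Pi.single i (1 : ℝ) : Fin m → ℝ))
          rw [sub_zero] at this
          rw [this, ih]; ring
      ext y
      rw [← hlin Finset.univ y]
      congr 1
      ext j
      simp [Finset.sum_apply, Pi.single_apply]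
    rw [this]
    fun_prop
  · intro s hs
    rcases ht hs with rfl | hs
    · exact hp0.le
    · exact (hA0 s hs).ge

/-- a point that can be removed -/
theorem exists_removable (S : Finset (Fin m → ℝ)) (hS : affineSpan ℝ (S : Set (Fin m → ℝ)) = ⊤)
    (hcard : m + 2 ≤ S.card) :
    ∃ p ∈ S, affineSpan ℝ (S.erase p : Set (Fin m → ℝ)) = ⊤ ∧
      p ∉ convexHull ℝ (S.erase p : Set (Fin m → ℝ)) := by
  classical
  set K := convexHull ℝ (S : Set (Fin m → ℝ)) with hK
  have hKc : IsCompact K := S.finite_toSet.isCompact_convexHull ℝ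
  have hconv : Convex ℝ K := convex_convexHull ℝ _
  set X := K.extremePoints ℝ with hX
  have hXS : X ⊆ (S : Set (Fin m → ℝ)) := extremePoints_convexHull_subset
  have hXf : X.Finite := S.finite_toSet.subset hXS
  have hXK : convexHull ℝ X = K := by
    rw [← (hXf.isClosed_convexHull ℝ).closure_eq]
    exact closure_convexHull_extremePoints hKc hconv
  have hXspan : affineSpan ℝ X = ⊤ := by
    rw [eq_top_iff, ← hS]
    apply affineSpan_le.2
    intro s hs
    have : s ∈ K := subset_convexHull ℝ _ hs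
    rw [← hXK] at this
    exact convexHull_subset_affineSpan X this
  obtain ⟨t, htX, hts, hti⟩ := exists_affineIndependent ℝ (Fin m → ℝ) X
  rw [hXspan] at hts
  have htf : t.Finite := hXf.subset htX
  have : Fintype t := htf.fintype
  have htcard : Fintype.card t = m + 1 := by
    have := hti.affineSpan_eq_top_iff_card_eq_finrank_add_one.1 (by simpa using hts)
    simpa using this
  obtain ⟨s, hsS, hst⟩ : ∃ s ∈ S, s ∉ t := by
    by_contra! h
    have h1 : S ⊆ htf.toFinset := fun x hx => htf.mem_toFinset.2 (h x hx)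
    have h2 := Finset.card_le_card h1
    rw [Set.Finite.card_toFinset htf] at h2
    omega
  -- some e in t works
  have hex : ∃ e ∈ t, affineSpan ℝ (S.erase e : Set (Fin m → ℝ)) = ⊤ := by
    by_contra! hcon
    have hchoose : ∀ e : t, ∃ g : (Fin m → ℝ) → ℝ, Aff g ∧ g e = 1 ∧
        ∀ a ∈ S.erase (e : Fin m → ℝ), g a = 0 := by
      intro e
      obtain ⟨g, hg, ⟨v, hv⟩, hg0⟩ := exists_aff _ (hcon e e.2)
      have hge : g e ≠ 0 := by
        intro h0
        apply hv
        apply aff_zero g hg _ hS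
        intro a ha
        by_cases hae : a = e
        · rw [hae, h0]
        · exact hg0 a (by simp [hae]; exact ha)
      refine ⟨fun y => (g e)⁻¹ * g y, ?_, ?_, ?_⟩
      · intro c u v w; simp only [hg c u v w]; ring
      · exact inv_mul_cancel₀ hge
      · intro a ha
        show (g e)⁻¹ * g a = 0
        rw [hg0 a (by exact_mod_cast ha), mul_zero]
    choose g hg hg1 hg0 using hchoose
    have hF : Aff (fun y => (∑ e : t, g e y) + (-1) * (fun _ => (1 : ℝ)) y) :=
      aff_add (aff_sum Finset.univ g (fun i _ => hg i)) (by intro c u v w; ring) (-1)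
    have hz := aff_zero _ hF t hts (by
      intro a ha
      have : ∑ e : t, g e a = 1 := by
        rw [Finset.sum_eq_single (⟨a, ha⟩ : t)]
        · exact hg1 ⟨a, ha⟩
        · intro b _ hb
          apply hg0
          rw [Finset.mem_erase]
          refine ⟨fun h => hb (Subtype.ext h.symm), hXS (htX ha)⟩
        · intro h; exact absurd (Finset.mem_univ _) h
      simp only [this]; ring) s
    have : ∑ e : t, g e s = 0 := by
      apply Finset.sum_eq_zero
      intro e _
      apply hg0
      rw [Finset.mem_erase]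
      refine ⟨fun h => hst (h ▸ e.2), hsS⟩
    simp only [this] at hz
    norm_num at hz
  obtain ⟨e, het, he⟩ := hex
  refine ⟨e, hXS (htX het), he, ?_⟩
  have h1 := (hconv.mem_extremePoints_iff_mem_sdiff_convexHull_sdiff.1 (htX het)).2
  intro h2
  apply h1
  apply convexHull_mono _ h2
  intro a ha
  simp only [Finset.coe_erase, Set.mem_diff, Set.mem_singleton_iff] at ha
  exact ⟨subset_convexHull ℝ _ ha.1, ha.2⟩

end Pool.Agent.Helper5.SV
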