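import Pool.Agent.Helper5.SV.Slice

open MeasureTheory
open scoped Pointwise

namespace Pool.Agent.Helper5.SV

/-- the standard simplex in coordinates -/
def Std (m : ℕ) : Set (Fin m → ℝ) := {y | (∀ i, 0 ≤ y i) ∧ ∑ i, y i ≤ 1}

theorem std_convex (m : ℕ) : Convex ℝ (Std m) := by
  intro y hy z hz a b ha hb hab
  refine ⟨fun i => ?_, ?_⟩
  · have := hy.1 i; have := hz.1 i
    simp only [Pi.add_apply, Pi.smul_apply, smul_eq_mul]
    positivity
  · have h1 := hy.2
    have h2 := hz.2
    simp only [Pi.add_apply, Pi.smul_apply, smul_eq_mul, Finset.sum_add_distrib,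
      ← Finset.mul_sum]
    calc a * ∑ i, y i + b * ∑ i, z i ≤ a * 1 + b * 1 := by gcongr
      _ = 1 := by linarith

theorem std_closed (m : ℕ) : IsClosed (Std m) := by
  have : Std m = (⋂ i, {y : Fin m → ℝ | 0 ≤ y i}) ∩ {y | ∑ i, y i ≤ 1} := by
    ext y; simp [Std]
  rw [this]
  apply IsClosed.inter
  · exact isClosed_iInter (fun i => isClosed_le continuous_const (continuous_apply i))
  · exact isClosed_le (continuous_finsetSum _ (fun i _ => continuous_apply i)) continuous_const

theorem std_finite (m : ℕ) : volume (Std m) < ⊤ := by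
  have hsub : Std m ⊆ Set.Icc (0 : Fin m → ℝ) 1 := by
    intro y hy
    refine ⟨fun i => hy.1 i, fun i => ?_⟩
    calc y i ≤ ∑ i, y i := Finset.single_le_sum (fun i _ => hy.1 i) (Finset.mem_univ i)
      _ ≤ 1 := hy.2
  exact lt_of_le_of_lt (measure_mono hsub) (isCompact_Icc.measure_lt_top)

theorem std_volume : ∀ m : ℕ, ENNReal.ofReal (1 / (m.factorial : ℝ)) ≤ volume (Std m)
  | 0 => by
    have : Std 0 = Set.univ := by
      ext y; simp [Std]
    rw [this, volume_pi, Measure.pi_univ]
    simp
  | m + 1 => by
    rw [volume_eq_slices _ (std_closed (m + 1)).measurableSet]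
    have h1 : ∀ s ∈ Set.Icc (0 : ℝ) 1, ENNReal.ofReal ((1 - s) ^ m * (1 / (m.factorial : ℝ)))
        ≤ volume (slice (Std (m + 1)) s) := by
      intro s hs
      have hsub : (1 - s) • Std m ⊆ slice (Std (m + 1)) s := by
        rintro _ ⟨z, hz, rfl⟩
        have h0 : 0 ≤ 1 - s := by linarith [hs.2]
        refine ⟨fun i => ?_, ?_⟩
        · refine Fin.cases ?_ (fun i => ?_) i
          · simpa using hs.1
          · have := hz.1 i
            simp only [Fin.cons_succ, Pi.smul_apply, smul_eq_mul]
            positivity
        · rw [Fin.sum_univ_succ]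
          simp only [Fin.cons_zero, Fin.cons_succ, Pi.smul_apply, smul_eq_mul, ← Finset.mul_sum]
          have : (1 - s) * ∑ i, z i ≤ (1 - s) * 1 := by
            gcongr
            exact hz.2
          linarith
      refine le_trans ?_ (measure_mono hsub)
      rw [Measure.addHaar_smul, ENNReal.ofReal_mul (by
        have : 0 ≤ 1 - s := by linarith [hs.2]
        positivity)]
      gcongr
      · simp only [Module.finrank_fintype_fun_eq_card, Fintype.card_fin]
        exact le_abs_self _
      · exact std_volume m
    calc ENNReal.ofReal (1 / ((m + 1).factorial : ℝ))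
        = ∫⁻ s in Set.Icc (0 : ℝ) 1, ENNReal.ofReal ((1 - s) ^ m * (1 / (m.factorial : ℝ))) := by
          rw [← ofReal_integral_eq_lintegral_ofReal]
          · congr 1
            rw [integral_Icc_eq_integral_Ioc, ← intervalIntegral.integral_of_le zero_le_one,
              intervalIntegral.integral_mul_const,
              intervalIntegral.integral_comp_sub_left (fun x => x ^ m) 1]
            simp only [sub_self, sub_zero, integral_pow, one_pow]
            rw [zero_pow (Nat.succ_ne_zero m), Nat.factorial_succ]
            push_cast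
            field_simp
            try ring
          · apply Continuous.integrableOn_Icc
            fun_prop
          · apply (ae_restrict_iff' measurableSet_Icc).2
            apply Filter.Eventually.of_forall
            intro s hs
            have : 0 ≤ 1 - s := by linarith [hs.2]
            show (0 : ℝ) ≤ _
            positivity
      _ ≤ ∫⁻ s in Set.Icc (0 : ℝ) 1, volume (slice (Std (m + 1)) s) :=
          setLIntegral_mono' measurableSet_Icc h1
      _ ≤ ∫⁻ s : ℝ, volume (slice (Std (m + 1)) s) := setLIntegral_le_lintegral _ _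

/-- volume of the standard simplex, real -/
noncomputable def V (m : ℕ) : ℝ := (volume (Std m)).toReal

theorem V_ge (m : ℕ) : 1 / (m.factorial : ℝ) ≤ V m := by
  have h := std_volume m
  have := (ENNReal.toReal_le_toReal (by simp) (std_finite m).ne).2 h
  rwa [ENNReal.toReal_ofReal (by positivity)] at this

theorem V_pos (m : ℕ) : 0 < V m :=
  lt_of_lt_of_le (by positivity) (V_ge m)

theorem hull_eq {m : ℕ} (x : Fin (m + 1) → (Fin m → ℝ)) :
    convexHull ℝ (Set.range x) = (fun w => x 0 + w) ''
      ((Matrix.toLin' (Matrix.of fun i : Fin m => (x i.succ - x 0 : Fin m → ℝ)).transpose) '' Std m) := by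
  set A : Matrix (Fin m) (Fin m) ℝ := Matrix.of fun i : Fin m => (x i.succ - x 0 : Fin m → ℝ) with hA
  have happ : ∀ y : Fin m → ℝ, Matrix.toLin' A.transpose y = ∑ i, y i • (x i.succ - x 0) := by
    intro y
    ext j
    simp [Matrix.toLin'_apply, Matrix.mulVec, dotProduct, hA, Finset.sum_apply, mul_comm]
  apply Set.Subset.antisymm
  · apply convexHull_min
    · rintro _ ⟨i, rfl⟩
      refine Fin.cases ?_ (fun i => ?_) i
      · refine ⟨0, ⟨0, ⟨fun i => le_refl _, by simp⟩, by simp⟩, by simp⟩
      · refine ⟨x i.succ - x 0, ⟨Pi.single i 1, ⟨fun j => ?_, ?_⟩, ?_⟩, by simp⟩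
        · by_cases h : j = i
          · subst h; simp
          · simp [h]
        · simp
        · rw [happ, Finset.sum_eq_single i]
          · simp
          · intro j _ hj; simp [hj]
          · simp
    · exact ((std_convex m).linear_image _).translate _
  · rintro _ ⟨_, ⟨y, hy, rfl⟩, rfl⟩
    show x 0 + Matrix.toLin' A.transpose y ∈ _
    rw [happ]
    have h1 : x 0 + ∑ i, y i • (x i.succ - x 0)
        = ∑ i, (Fin.cons (1 - ∑ i, y i) y : Fin (m + 1) → ℝ) i • x i := by
      rw [Fin.sum_univ_succ]
      simp only [Fin.cons_zero, Fin.cons_succ, smul_sub, Finset.sum_sub_distrib, sub_smul, one_smul,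
        Finset.sum_smul]
      abel
    rw [h1]
    apply (convex_convexHull ℝ (Set.range x)).sum_mem
    · intro i _
      refine Fin.cases ?_ (fun i => ?_) i
      · have := hy.2
        simp only [Fin.cons_zero]
        linarith
      · simpa using hy.1 i
    · rw [Fin.sum_univ_succ]; simp
    · intro i _
      exact subset_convexHull ℝ _ ⟨i, rfl⟩

theorem volume_hull {m : ℕ} (x : Fin (m + 1) → (Fin m → ℝ)) :
    volume (convexHull ℝ (Set.range x)) = ENNReal.ofReal |G x| * volume (Std m) := by
  rw [hull_eq, Set.image_add_left, measure_preimage_add, Measure.addHaar_image_linearMap,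
    LinearMap.det_toLin', Matrix.det_transpose, G_eq_D]
  rfl

theorem simplexVolume_eq {m : ℕ} (x : Fin (m + 1) → (Fin m → ℝ)) :
    simplexVolume x = |G x| * V m := by
  rw [simplexVolume, volume_hull, ENNReal.toReal_mul, ENNReal.toReal_ofReal (abs_nonneg _)]
  rfl

end Pool.Agent.Helper5.SV
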