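import Pool.Agent.Helper5.SV.Det

open MeasureTheory

namespace Pool.Agent.Helper5.SV

/-- slice of K at height s of the first coordinate -/
def slice {m : ℕ} (K : Set (Fin (m + 1) → ℝ)) (s : ℝ) : Set (Fin m → ℝ) :=
  {y | (Fin.cons s y : Fin (m + 1) → ℝ) ∈ K}

theorem volume_eq_slices {m : ℕ} (K : Set (Fin (m + 1) → ℝ)) (hK : MeasurableSet K) :
    volume K = ∫⁻ s : ℝ, volume (slice K s) := by
  have h := (volume_preserving_piFinSuccAbove (fun _ : Fin (m + 1) => ℝ) 0).symm
  have h1 := h.measure_preimage hK.nullMeasurableSet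
  rw [← h1]
  rw [show (volume : Measure (ℝ × (Fin m → ℝ))) = Measure.prod volume volume from rfl]
  rw [Measure.prod_apply]
  · congr 1
    funext s
    congr 1
    ext y
    simp only [Set.mem_preimage, slice, Set.mem_ofPred_eq]
    have : (MeasurableEquiv.piFinSuccAbove (fun _ : Fin (m + 1) => ℝ) 0).symm (s, y)
        = (Fin.cons s y : Fin (m + 1) → ℝ) := by
      ext i
      refine Fin.cases ?_ (fun i => ?_) i
      · simp [MeasurableEquiv.piFinSuccAbove]
      · simp [MeasurableEquiv.piFinSuccAbove]
    rw [this]
  · exact (MeasurableEquiv.measurable _) hK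

theorem continuous_cons {m : ℕ} (s : ℝ) :
    Continuous (fun y : Fin m → ℝ => (Fin.cons s y : Fin (m + 1) → ℝ)) := by
  apply continuous_pi
  intro i
  refine Fin.cases ?_ (fun i => ?_) i
  · simpa using continuous_const
  · simpa using continuous_apply i

theorem slice_compact {m : ℕ} (K : Set (Fin (m + 1) → ℝ)) (hK : IsCompact K) (s : ℝ) :
    IsCompact (slice K s) := by
  have h1 : slice K s = (fun z : Fin (m + 1) → ℝ => (fun i : Fin m => z i.succ)) ''
      (K ∩ {z | z 0 = s}) := by
    ext y
    constructor
    · intro hy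
      exact ⟨Fin.cons s y, ⟨hy, by simp⟩, by ext i; simp⟩
    · rintro ⟨z, ⟨hz, hz0⟩, rfl⟩
      have : (Fin.cons s (fun i : Fin m => z i.succ) : Fin (m + 1) → ℝ) = z := by
        ext i
        refine Fin.cases ?_ (fun i => ?_) i
        · simpa using hz0.symm
        · simp
      show (Fin.cons s (fun i : Fin m => z i.succ) : Fin (m + 1) → ℝ) ∈ K
      rw [this]; exact hz
  rw [h1]
  apply IsCompact.image
  · apply hK.inter_right
    exact isClosed_eq (continuous_apply 0) continuous_const
  · exact continuous_pi (fun i => continuous_apply _)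

/-- determinant of a slice simplex together with one further point -/
theorem D_cons {m : ℕ} (y : Fin (m + 1) → (Fin m → ℝ)) (s : ℝ) (z : Fin (m + 1) → ℝ) :
    D (Fin.cons (Fin.cons s (y 0)) (Fin.cons z (fun i : Fin m => Fin.cons s (y i.succ)))
      : Fin (m + 2) → (Fin (m + 1) → ℝ)) = (z 0 - s) * D y := by
  unfold D
  rw [Matrix.det_succ_column_zero, Fin.sum_univ_succ]
  have h2 : ∑ i : Fin m, (-1 : ℝ) ^ (i.succ : ℕ) *
      (Matrix.of fun i : Fin (m + 1) =>
        ((Fin.cons (Fin.cons s (y 0)) (Fin.cons z (fun i : Fin m => Fin.cons s (y i.succ)))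
          : Fin (m + 2) → (Fin (m + 1) → ℝ)) i.succ -
         (Fin.cons (Fin.cons s (y 0)) (Fin.cons z (fun i : Fin m => Fin.cons s (y i.succ)))
          : Fin (m + 2) → (Fin (m + 1) → ℝ)) 0)) i.succ 0
      * ((Matrix.of fun i : Fin (m + 1) =>
        ((Fin.cons (Fin.cons s (y 0)) (Fin.cons z (fun i : Fin m => Fin.cons s (y i.succ)))
          : Fin (m + 2) → (Fin (m + 1) → ℝ)) i.succ -
         (Fin.cons (Fin.cons s (y 0)) (Fin.cons z (fun i : Fin m => Fin.cons s (y i.succ)))
          : Fin (m + 2) → (Fin (m + 1) → ℝ)) 0)).submatrix i.succ.succAbove Fin.succ).det = 0 := by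
    apply Finset.sum_eq_zero
    intro i _
    simp
  rw [h2, add_zero]
  have h3 : ∀ p q r s : ℝ, p = r → q = s → p * q = r * s := by
    intro p q r s h1 h2; rw [h1, h2]
  apply h3
  · simp
  · congr 1

theorem lintegral_inv_left (a b C : ℝ) (hab : a < b) (hC : 0 ≤ C) :
    ∫⁻ s in Set.Icc a ((a + b) / 2), ENNReal.ofReal (C / (b - s))
      = ENNReal.ofReal (C * Real.log 2) := by
  have hc : a < (a + b) / 2 := by linarith
  have hcb : (a + b) / 2 < b := by linarith
  have hcont : ContinuousOn (fun s : ℝ => C / (b - s)) (Set.Icc a ((a + b) / 2)) := by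
    apply ContinuousOn.div continuousOn_const (by fun_prop)
    intro s hs
    have := hs.2
    linarith
  rw [← ofReal_integral_eq_lintegral_ofReal]
  · congr 1
    rw [integral_Icc_eq_integral_Ioc, ← intervalIntegral.integral_of_le hc.le]
    have : ∀ s : ℝ, C / (b - s) = C * (b - s)⁻¹ := fun s => div_eq_mul_inv _ _
    simp only [this]
    rw [intervalIntegral.integral_const_mul,
      intervalIntegral.integral_comp_sub_left (fun x => x⁻¹) b,
      integral_inv_of_pos (by linarith) (by linarith)]
    congr 2
    have hne : b - (a + b) / 2 ≠ 0 := by intro h; linarith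
    rw [div_eq_iff hne]
    ring
  · exact hcont.integrableOn_Icc
  · apply (ae_restrict_iff' measurableSet_Icc).2
    apply Filter.Eventually.of_forall
    intro s hs
    have h2 := hs.2
    exact div_nonneg hC (by linarith)

theorem lintegral_inv_right (a b C : ℝ) (hab : a < b) (hC : 0 ≤ C) :
    ∫⁻ s in Set.Icc ((a + b) / 2) b, ENNReal.ofReal (C / (s - a))
      = ENNReal.ofReal (C * Real.log 2) := by
  have hc : a < (a + b) / 2 := by linarith
  have hcb : (a + b) / 2 < b := by linarith
  have hcont : ContinuousOn (fun s : ℝ => C / (s - a)) (Set.Icc ((a + b) / 2) b) := by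
    apply ContinuousOn.div continuousOn_const (by fun_prop)
    intro s hs
    have := hs.1
    linarith
  rw [← ofReal_integral_eq_lintegral_ofReal]
  · congr 1
    rw [integral_Icc_eq_integral_Ioc, ← intervalIntegral.integral_of_le hcb.le]
    have : ∀ s : ℝ, C / (s - a) = C * (s - a)⁻¹ := fun s => div_eq_mul_inv _ _
    simp only [this]
    rw [intervalIntegral.integral_const_mul,
      intervalIntegral.integral_comp_sub_right (fun x => x⁻¹) a,
      integral_inv_of_pos (by linarith) (by linarith)]
    congr 2
    have hne : (a + b) / 2 - a ≠ 0 := by intro h; linarith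
    rw [div_eq_iff hne]
    ring
  · exact hcont.integrableOn_Icc
  · apply (ae_restrict_iff' measurableSet_Icc).2
    apply Filter.Eventually.of_forall
    intro s hs
    have h2 := hs.1
    exact div_nonneg hC (by linarith)

theorem volume_le : ∀ (m : ℕ) (K : Set (Fin (m + 1) → ℝ)) (_ : IsCompact K) (T : ℝ) (_ : 0 ≤ T)
    (_ : ∀ x : Fin (m + 2) → (Fin (m + 1) → ℝ), (∀ i, x i ∈ K) → |D x| ≤ T),
    volume K ≤ ENNReal.ofReal ((2 * Real.log 2) ^ m * T)
  | 0, K, hK, T, hT0, hT => by
    refine (Real.volume_pi_le_diam_pow K).trans ?_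
    simp only [Fintype.card_fin, zero_add, pow_one, pow_zero, one_mul]
    apply Metric.ediam_le
    intro x hx y hy
    rw [edist_dist]
    apply ENNReal.ofReal_le_ofReal
    rw [dist_pi_le_iff hT0]
    intro i
    have := hT (fun j : Fin 2 => if j = 0 then y else x) (fun j => by
      split_ifs <;> assumption)
    have hi : i = 0 := Fin.fin_one_eq_zero i
    subst hi
    simpa [D, Real.dist_eq] using this
  | m + 1, K, hK, T, hT0, hT => by
    rcases K.eq_empty_or_nonempty with rfl | hne
    · simp
    obtain ⟨za, hza, hamin⟩ := hK.exists_isMinOn hne (continuous_apply (0 : Fin (m + 2))).continuousOn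
    obtain ⟨zb, hzb, hbmax⟩ := hK.exists_isMaxOn hne (continuous_apply (0 : Fin (m + 2))).continuousOn
    set a : ℝ := za 0 with ha
    set b : ℝ := zb 0 with hb
    have hslice0 : ∀ s, s ∉ Set.Icc a b → slice K s = ∅ := by
      intro s hs
      rw [Set.eq_empty_iff_forall_notMem]
      intro y hy
      apply hs
      have h1 := hamin hy
      have h2 := hbmax hy
      simp only [Set.mem_setOf_eq, Fin.cons_zero] at h1 h2
      exact ⟨h1, h2⟩
    have hslice : ∀ s : ℝ, ∀ z ∈ K, z 0 ≠ s →
        volume (slice K s) ≤ ENNReal.ofReal ((2 * Real.log 2) ^ m * T / |z 0 - s|) := by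
      intro s z hz hzs
      have hpos : 0 < |z 0 - s| := abs_pos.2 (sub_ne_zero.2 hzs)
      have := volume_le m (slice K s) (slice_compact K hK s) (T / |z 0 - s|)
        (by positivity) (by
          intro y hy
          rw [le_div_iff₀ hpos]
          have h3 := hT (Fin.cons (Fin.cons s (y 0)) (Fin.cons z (fun i => Fin.cons s (y i.succ))))
            (by
              intro i
              refine Fin.cases ?_ (fun i => ?_) i
              · exact hy 0
              · refine Fin.cases ?_ (fun i => ?_) i
                · simpa using hz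
                · exact hy i.succ)
          rw [D_cons, abs_mul] at h3
          linarith [mul_comm |D y| |z 0 - s|])
      rw [mul_div_assoc]
      exact this
    rw [volume_eq_slices K hK.measurableSet]
    have hab : a ≤ b := hbmax hza
    have hrestr : ∫⁻ s : ℝ, volume (slice K s) = ∫⁻ s in Set.Icc a b, volume (slice K s) := by
      rw [← lintegral_indicator measurableSet_Icc]
      congr 1
      ext s
      by_cases hs : s ∈ Set.Icc a b
      · rw [Set.indicator_of_mem hs]
      · rw [Set.indicator_of_notMem hs, hslice0 s hs, measure_empty]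
    rw [hrestr]
    rcases hab.eq_or_lt with hab | hab
    · rw [← hab, Set.Icc_self, Measure.restrict_singleton]
      simp
    have hC : 0 ≤ (2 * Real.log 2) ^ m * T := by
      have := Real.log_pos (show (1 : ℝ) < 2 by norm_num)
      positivity
    calc ∫⁻ s in Set.Icc a b, volume (slice K s)
        ≤ ∫⁻ s in Set.Icc a ((a + b) / 2) ∪ Set.Icc ((a + b) / 2) b, volume (slice K s) := by
          apply lintegral_mono_set
          rw [Set.Icc_union_Icc_eq_Icc (by linarith) (by linarith)]
      _ ≤ (∫⁻ s in Set.Icc a ((a + b) / 2), volume (slice K s))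
          + ∫⁻ s in Set.Icc ((a + b) / 2) b, volume (slice K s) := lintegral_union_le _ _ _
      _ ≤ (∫⁻ s in Set.Icc a ((a + b) / 2), ENNReal.ofReal (((2 * Real.log 2) ^ m * T) / (b - s)))
          + ∫⁻ s in Set.Icc ((a + b) / 2) b, ENNReal.ofReal (((2 * Real.log 2) ^ m * T) / (s - a)) := by
          apply add_le_add
          · apply setLIntegral_mono' measurableSet_Icc
            intro s hs
            have h1 := hs.2
            have := hslice s zb hzb (by rw [← hb]; intro h; linarith)
            rwa [← hb, abs_of_pos (by linarith)] at this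
          · apply setLIntegral_mono' measurableSet_Icc
            intro s hs
            have h1 := hs.1
            have := hslice s za hza (by rw [← ha]; intro h; linarith)
            rwa [← ha, abs_of_neg (by linarith), neg_sub] at this
      _ = ENNReal.ofReal (((2 * Real.log 2) ^ m * T) * Real.log 2)
          + ENNReal.ofReal (((2 * Real.log 2) ^ m * T) * Real.log 2) := by
          rw [lintegral_inv_left a b _ hab hC, lintegral_inv_right a b _ hab hC]
      _ = ENNReal.ofReal ((2 * Real.log 2) ^ (m + 1) * T) := by
          rw [← ENNReal.ofReal_add]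
          · congr 1; ring
          all_goals exact mul_nonneg hC (Real.log_nonneg (by norm_num))

end Pool.Agent.Helper5.SV
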